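import Pool.Agent.Y212.Pk.Top

/-!
Infinitesimal subgroup schemes of parabolic subgroups of `GL_n` with heights `r i j` which do not
decrease along the rows: the ideal, the invariants and the semi-invariants.
Generalises `Pool.Agent.Y212.Pk` (starting library), where the heights are constant along the rows.
-/

set_option autoImplicit false
set_option linter.unusedSectionVars false

open MvPolynomial Matrix

namespace Pool.Agent.N429.RS

open Pool.Agent.Y212.Fk Pool.Agent.Y212.Pk

variable (k : Type*) [Field k] (n m : ℕ) (lv : Fin n → ℕ)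

/-- The ideal of the infinitesimal subgroup scheme: `g i j ^ q i j = δ i j`, and `g i j = 0` for
`lv j < lv i`. -/
noncomputable def frobM (q : Fin n → Fin n → ℕ) :
    Ideal (MvPolynomial (Fin n × Fin n) (MvPolynomial (Fin n × Fin m) k)) :=
  Ideal.span ((Set.range fun u => X u ^ q u.1 u.2 - if u.1 = u.2 then 1 else 0) ∪
    ((fun u => X u) '' {u | lv u.2 < lv u.1}))

/-- The algebra of invariants. -/
noncomputable def InvM (q : Fin n → Fin n → ℕ) : Subalgebra k (MvPolynomial (Fin n × Fin m) k) where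
  carrier := {f | coact k n m f - C f ∈ frobM k n m lv q}
  mul_mem' := by
    intro a b ha hb
    have h : coact k n m (a * b) - C (a * b) =
        coact k n m a * (coact k n m b - C b) + C b * (coact k n m a - C a) := by
      rw [map_mul, map_mul]; ring
    change coact k n m (a * b) - C (a * b) ∈ frobM k n m lv q
    rw [h]
    exact Ideal.add_mem _ (Ideal.mul_mem_left _ _ hb) (Ideal.mul_mem_left _ _ ha)
  add_mem' := by
    intro a b ha hb
    have h : coact k n m (a + b) - C (a + b) =
        (coact k n m a - C a) + (coact k n m b - C b) := by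
      rw [map_add, map_add]; ring
    change coact k n m (a + b) - C (a + b) ∈ frobM k n m lv q
    rw [h]
    exact Ideal.add_mem _ ha hb
  algebraMap_mem' := by
    intro a
    change coact k n m (algebraMap _ _ a) - C (algebraMap _ _ a) ∈ frobM k n m lv q
    rw [AlgHom.commutes]
    have h : (algebraMap k (MvPolynomial (Fin n × Fin n) (MvPolynomial (Fin n × Fin m) k))) a =
      C (algebraMap k (MvPolynomial (Fin n × Fin m) k) a) := rfl
    rw [h, sub_self]
    exact Ideal.zero_mem _

variable {k n m}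

lemma mem_InvM {q : Fin n → Fin n → ℕ} {f : MvPolynomial (Fin n × Fin m) k} :
    f ∈ InvM k n m lv q ↔ coact k n m f - C f ∈ frobM k n m lv q := Iff.rfl

lemma X_mem (q : Fin n → Fin n → ℕ) {i j : Fin n} (h : lv j < lv i) :
    (X (i, j) : MvPolynomial (Fin n × Fin n) (MvPolynomial (Fin n × Fin m) k)) ∈
      frobM k n m lv q := Ideal.subset_span (Or.inr ⟨(i, j), h, rfl⟩)

/-- semi-invariants with the multiplier `μ` -/
def Semi (q : Fin n → Fin n → ℕ) (f : MvPolynomial (Fin n × Fin m) k)
    (μ : MvPolynomial (Fin n × Fin n) (MvPolynomial (Fin n × Fin m) k)) : Prop :=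
  coact k n m f - μ * C f ∈ frobM k n m lv q

lemma Semi.mul {q : Fin n → Fin n → ℕ} {f f' : MvPolynomial (Fin n × Fin m) k}
    {μ μ' : MvPolynomial (Fin n × Fin n) (MvPolynomial (Fin n × Fin m) k)}
    (h : Semi lv q f μ) (h' : Semi lv q f' μ') : Semi lv q (f * f') (μ * μ') := by
  unfold Semi at *
  have e : coact k n m (f * f') - μ * μ' * C (f * f') =
      coact k n m f * (coact k n m f' - μ' * C f') + μ' * C f' * (coact k n m f - μ * C f) := by
    rw [map_mul, map_mul]; ring
  rw [e]
  exact Ideal.add_mem _ (Ideal.mul_mem_left _ _ h') (Ideal.mul_mem_left _ _ h)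

lemma Semi.one {q : Fin n → Fin n → ℕ} : Semi (k := k) (m := m) lv q 1 1 := by
  unfold Semi
  rw [map_one, map_one, mul_one, sub_self]
  exact Ideal.zero_mem _

lemma Semi.pow {q : Fin n → Fin n → ℕ} {f : MvPolynomial (Fin n × Fin m) k}
    {μ : MvPolynomial (Fin n × Fin n) (MvPolynomial (Fin n × Fin m) k)}
    (h : Semi lv q f μ) (N : ℕ) : Semi lv q (f ^ N) (μ ^ N) := by
  induction N with
  | zero => simpa using Semi.one lv
  | succ N ih =>
    rw [pow_succ, pow_succ]
    exact ih.mul lv h

lemma Semi.prod {ι : Type*} {q : Fin n → Fin n → ℕ} (s : Finset ι)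
    {f : ι → MvPolynomial (Fin n × Fin m) k}
    {μ : ι → MvPolynomial (Fin n × Fin n) (MvPolynomial (Fin n × Fin m) k)}
    (h : ∀ i ∈ s, Semi lv q (f i) (μ i)) : Semi lv q (∏ i ∈ s, f i) (∏ i ∈ s, μ i) := by
  classical
  induction s using Finset.induction_on with
  | empty => simpa using Semi.one lv
  | insert a s ha ih =>
    rw [Finset.prod_insert ha, Finset.prod_insert ha]
    exact (h a (Finset.mem_insert_self a s)).mul lv
      (ih fun i hi => h i (Finset.mem_insert_of_mem hi))

lemma Semi.inv {q : Fin n → Fin n → ℕ} {f : MvPolynomial (Fin n × Fin m) k}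
    {μ : MvPolynomial (Fin n × Fin n) (MvPolynomial (Fin n × Fin m) k)}
    (h : Semi lv q f μ) (hμ : μ - 1 ∈ frobM k n m lv q) : f ∈ InvM k n m lv q := by
  rw [mem_InvM]
  have e : coact k n m f - C f = (coact k n m f - μ * C f) + C f * (μ - 1) := by ring
  rw [e]
  exact Ideal.add_mem _ h (Ideal.mul_mem_left _ _ hμ)

/-- the matrix with the first row `i` and the rows of level at least `L` -/
def rws (L : ℕ) (i : Fin n) : Unit ⊕ Rw lv L → Fin n := Sum.elim (fun _ => i) Subtype.val

/-- the columns -/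
def cls (L : ℕ) (c : Fin m) (e : Fin n → Fin m) : Unit ⊕ Rw lv L → Fin m :=
  Sum.elim (fun _ => c) fun w => e w.1

/-- The mixed minors. -/
noncomputable def mx (k : Type*) [Field k] {n m : ℕ} (lv : Fin n → ℕ) (L : ℕ) (i : Fin n)
    (c : Fin m) (e : Fin n → Fin m) : MvPolynomial (Fin n × Fin m) k :=
  ((gen k n m).submatrix (rws lv L i) (cls lv L c e)).det

lemma semi_mn (q : Fin n → Fin n → ℕ) (L : ℕ) (e : Fin n → Fin m) :
    Semi lv q (mn k lv L e) (gL k n m lv L).det := by
  unfold Semi
  rw [mn, AlgHom.map_det, RingHom.map_det, ← det_mul]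
  apply det_sub_mem
  intro i j
  have h1 : (coact k n m).mapMatrix ((gen k n m).submatrix
      (Subtype.val : Rw lv L → Fin n) fun l => e l.1) i j =
      ∑ l : Fin n, X (i.1, l) * C (X (l, e j.1)) := by
    simp [coact, gen]
  have h2 : ((gL k n m lv L) * (C : MvPolynomial (Fin n × Fin m) k →+*
      MvPolynomial (Fin n × Fin n) (MvPolynomial (Fin n × Fin m) k)).mapMatrix
      ((gen k n m).submatrix (Subtype.val : Rw lv L → Fin n) fun l => e l.1)) i j =
      ∑ l : Rw lv L, X (i.1, l.1) * C (X (l.1, e j.1)) := by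
    simp [Matrix.mul_apply, gL, gen]
  rw [h1, h2]
  have h3 : ∑ l : Rw lv L, (X (i.1, l.1) * C (X (l.1, e j.1)) :
      MvPolynomial (Fin n × Fin n) (MvPolynomial (Fin n × Fin m) k)) =
      ∑ l ∈ Finset.univ.filter (fun l => L ≤ lv l), X (i.1, l) * C (X (l, e j.1)) :=
    (Finset.sum_subtype (Finset.univ.filter (fun l => L ≤ lv l)) (p := fun l => L ≤ lv l)
      (fun x => by simp) (fun l => (X (i.1, l) * C (X (l, e j.1)) :
      MvPolynomial (Fin n × Fin n) (MvPolynomial (Fin n × Fin m) k)))).symm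
  rw [h3, ← Finset.sum_filter_add_sum_filter_not Finset.univ (fun l => L ≤ lv l),
    add_sub_cancel_left]
  refine Ideal.sum_mem _ fun l hl => ?_
  have h4 : ¬ L ≤ lv l := (Finset.mem_filter.1 hl).2
  have h5 := i.2
  exact Ideal.mul_mem_right _ _ (X_mem lv q (by omega))

section char

variable {p : ℕ} [hp : Fact p.Prime] [CharP k p] (r : Fin n → Fin n → ℕ) (R : ℕ)

include hp

lemma pow_sub_mem (i j : Fin n) {N : ℕ} (hN : r i j ≤ N) :
    (X (i, j) : MvPolynomial (Fin n × Fin n) (MvPolynomial (Fin n × Fin m) k)) ^ (p ^ N) -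
      (if i = j then 1 else 0) ∈ frobM k n m lv fun i j => p ^ r i j := by
  obtain ⟨s, rfl⟩ := Nat.exists_eq_add_of_le hN
  have h1 : (X (i, j) : MvPolynomial (Fin n × Fin n) (MvPolynomial (Fin n × Fin m) k)) ^
      (p ^ r i j) - (if i = j then 1 else 0) ∈ frobM k n m lv fun i j => p ^ r i j :=
    Ideal.subset_span (Or.inl ⟨(i, j), rfl⟩)
  have h2 : (if i = j then (1 : MvPolynomial (Fin n × Fin n) (MvPolynomial (Fin n × Fin m) k))
      else 0) = (if i = j then 1 else 0) ^ (p ^ s) := by
    have : p ^ s ≠ 0 := (pow_pos hp.out.pos s).ne'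
    split_ifs
    · simp
    · exact (zero_pow this).symm
  rw [h2, pow_add, pow_mul, ← sub_pow_char_pow]
  exact Ideal.pow_mem_of_mem _ h1 _ (pow_pos hp.out.pos s)

/-- entries outside the rows of level `> lv l` -/
lemma pow_sub_mem' (hmono : ∀ i j l, lv j ≤ lv l → r i j ≤ r i l) (i j l : Fin n)
    (hj : lv j ≤ lv l) :
    (X (i, j) : MvPolynomial (Fin n × Fin n) (MvPolynomial (Fin n × Fin m) k)) ^ (p ^ r i l) -
      (if i = j then 1 else 0) ∈ frobM k n m lv fun i j => p ^ r i j :=
  pow_sub_mem lv r i j (hmono i j l hj)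

lemma det_gL_pow (hR : ∀ i j, r i j ≤ R) (L : ℕ) :
    (gL k n m lv L).det ^ (p ^ R) - 1 ∈ frobM k n m lv fun i j => p ^ r i j := by
  rw [← iterateFrobenius_def, RingHom.map_det]
  rw [← Matrix.det_one (n := Rw lv L)]
  apply det_sub_mem
  intro i j
  rw [RingHom.mapMatrix_apply, Matrix.map_apply, iterateFrobenius_def, Matrix.one_apply]
  have h := pow_sub_mem (k := k) (m := m) (p := p) lv r i.1 j.1 (hR _ _)
  simpa only [gL, Matrix.of_apply, Subtype.ext_iff] using h

lemma pow_memM (hR : ∀ i j, r i j ≤ R) (u : Fin n × Fin m) :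
    (X u : MvPolynomial (Fin n × Fin m) k) ^ (p ^ R) ∈
      InvM k n m lv fun i j => p ^ r i j := by
  rw [mem_InvM, map_pow, map_pow]
  have h1 : coact k n m (X u) = ∑ l, X (u.1, l) * C (X (l, u.2)) := by
    simp [coact]
  have h2 : (C (X u) : MvPolynomial (Fin n × Fin n) (MvPolynomial (Fin n × Fin m) k))
      ^ (p ^ R) = ∑ l, (if u.1 = l then 1 else 0) * C (X (l, u.2)) ^ (p ^ R) := by
    simp
  rw [h1, sum_pow_char_pow, h2, ← Finset.sum_sub_distrib]
  refine Ideal.sum_mem _ fun l _ => ?_
  rw [mul_pow, ← sub_mul]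
  exact Ideal.mul_mem_right _ _ (pow_sub_mem lv r u.1 l (hR _ _))

/-- The mixed minors of the row `i` and the rows of level greater than `lv l` are semi-invariant
after the `p ^ r i l`-th power. -/
lemma semi_mx (hmono : ∀ i j l, lv j ≤ lv l → r i j ≤ r i l) (i l : Fin n) (hil : lv i ≤ lv l)
    (c : Fin m) (e : Fin n → Fin m) :
    Semi lv (fun i j => p ^ r i j) (mx k lv (lv l + 1) i c e ^ (p ^ r i l))
      ((gL k n m lv (lv l + 1)).det ^ (p ^ r i l)) := by
  classical
  set L := lv l + 1 with hL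
  set N := r i l with hN
  unfold Semi
  -- the matrix of the group element
  let G : Matrix (Unit ⊕ Rw lv L) (Unit ⊕ Rw lv L)
      (MvPolynomial (Fin n × Fin n) (MvPolynomial (Fin n × Fin m) k)) :=
    Matrix.fromBlocks 1 (Matrix.of fun _ w => X (i, w.1) ^ (p ^ N)) 0
      ((iterateFrobenius _ p N).mapMatrix (gL k n m lv L))
  have hG : G.det = (gL k n m lv L).det ^ (p ^ N) := by
    rw [Matrix.det_fromBlocks_zero₂₁, Matrix.det_one, one_mul, ← RingHom.map_det,
      iterateFrobenius_def]
  have hB : (C (mx k lv L i c e ^ (p ^ N)) :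
      MvPolynomial (Fin n × Fin n) (MvPolynomial (Fin n × Fin m) k)) =
      (Matrix.of fun a b : Unit ⊕ Rw lv L => (C (X (rws lv L i a, cls lv L c e b) ^ (p ^ N)) :
        MvPolynomial (Fin n × Fin n) (MvPolynomial (Fin n × Fin m) k))).det := by
    rw [← iterateFrobenius_def, mx, RingHom.map_det, RingHom.map_det]
    rfl
  have hA : coact k n m (mx k lv L i c e ^ (p ^ N)) =
      (Matrix.of fun a b : Unit ⊕ Rw lv L => ∑ j : Fin n, X (rws lv L i a, j) ^ (p ^ N) *
        (C (X (j, cls lv L c e b) ^ (p ^ N)) :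
        MvPolynomial (Fin n × Fin n) (MvPolynomial (Fin n × Fin m) k))).det := by
    rw [map_pow, ← iterateFrobenius_def, mx, AlgHom.map_det, RingHom.map_det]
    congr 1
    ext1 a b
    simp only [gen, RingHom.mapMatrix_apply, Matrix.map_apply, AlgHom.mapMatrix_apply,
      Matrix.submatrix_apply, Matrix.of_apply, iterateFrobenius_def, coact, aeval_X]
    rw [sum_pow_char_pow]
    simp only [mul_pow, map_pow]
  rw [hA, hB, ← hG, ← Matrix.det_mul]
  apply det_sub_mem
  intro a b
  rw [Matrix.mul_apply, Fintype.sum_sum_type]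
  have hsub : ∀ f : Fin n → MvPolynomial (Fin n × Fin n) (MvPolynomial (Fin n × Fin m) k),
      ∑ w : Rw lv L, f w.1 = ∑ j ∈ Finset.univ.filter (fun j => L ≤ lv j), f j := fun f =>
    (Finset.sum_subtype (Finset.univ.filter (fun j => L ≤ lv j)) (p := fun j => L ≤ lv j)
      (fun x => by simp) f).symm
  rcases a with a | w
  · have e1 : ∑ w : Rw lv L, G (Sum.inl a) (Sum.inr w) *
        (Matrix.of fun a b : Unit ⊕ Rw lv L => (C (X (rws lv L i a, cls lv L c e b) ^ (p ^ N)) :
        MvPolynomial (Fin n × Fin n) (MvPolynomial (Fin n × Fin m) k))) (Sum.inr w) b =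
        ∑ j ∈ Finset.univ.filter (fun j => L ≤ lv j), X (i, j) ^ (p ^ N) *
          C (X (j, cls lv L c e b) ^ (p ^ N)) := by
      rw [← hsub (fun j => X (i, j) ^ (p ^ N) * C (X (j, cls lv L c e b) ^ (p ^ N)))]
      rfl
    have e2 : ∑ x : Unit, G (Sum.inl a) (Sum.inl x) *
        (Matrix.of fun a b : Unit ⊕ Rw lv L => (C (X (rws lv L i a, cls lv L c e b) ^ (p ^ N)) :
        MvPolynomial (Fin n × Fin n) (MvPolynomial (Fin n × Fin m) k))) (Sum.inl x) b =
        ∑ j ∈ Finset.univ.filter (fun j => ¬ L ≤ lv j), (if i = j then 1 else 0) *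
          C (X (j, cls lv L c e b) ^ (p ^ N)) := by
      rw [Finset.univ_unique, Finset.sum_singleton]
      have hi : i ∈ Finset.univ.filter (fun j => ¬ L ≤ lv j) := by
        simp only [Finset.mem_filter, Finset.mem_univ, true_and]
        omega
      rw [Finset.sum_eq_single_of_mem i hi]
      · rw [if_pos rfl, one_mul]
        have : G (Sum.inl a) (Sum.inl default) = 1 := by
          show (1 : Matrix Unit Unit _) a default = 1
          rw [Subsingleton.elim a default, Matrix.one_apply_eq]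
        rw [this, one_mul]
        rfl
      · intro j _ hj
        rw [if_neg (Ne.symm hj), zero_mul]
    rw [e1, e2]
    show ∑ j : Fin n, X (i, j) ^ (p ^ N) * _ - _ ∈ _
    rw [← Finset.sum_filter_add_sum_filter_not Finset.univ (fun j => L ≤ lv j), add_comm
      (∑ j ∈ Finset.univ.filter (fun j => ¬ L ≤ lv j), _) (∑ j ∈ _, _), add_sub_add_left_eq_sub,
      ← Finset.sum_sub_distrib]
    refine Ideal.sum_mem _ fun j hj => ?_
    rw [← sub_mul]
    have h4 : ¬ L ≤ lv j := (Finset.mem_filter.1 hj).2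
    exact Ideal.mul_mem_right _ _ (pow_sub_mem' lv r hmono i j l (by omega))
  · have e1 : ∑ w' : Rw lv L, G (Sum.inr w) (Sum.inr w') *
        (Matrix.of fun a b : Unit ⊕ Rw lv L => (C (X (rws lv L i a, cls lv L c e b) ^ (p ^ N)) :
        MvPolynomial (Fin n × Fin n) (MvPolynomial (Fin n × Fin m) k))) (Sum.inr w') b =
        ∑ j ∈ Finset.univ.filter (fun j => L ≤ lv j), X (w.1, j) ^ (p ^ N) *
          C (X (j, cls lv L c e b) ^ (p ^ N)) := by
      rw [← hsub (fun j => X (w.1, j) ^ (p ^ N) * C (X (j, cls lv L c e b) ^ (p ^ N)))]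
      rfl
    have e2 : ∑ x : Unit, G (Sum.inr w) (Sum.inl x) *
        (Matrix.of fun a b : Unit ⊕ Rw lv L => (C (X (rws lv L i a, cls lv L c e b) ^ (p ^ N)) :
        MvPolynomial (Fin n × Fin n) (MvPolynomial (Fin n × Fin m) k))) (Sum.inl x) b = 0 := by
      refine Finset.sum_eq_zero fun x _ => ?_
      have : G (Sum.inr w) (Sum.inl x) = 0 := rfl
      rw [this, zero_mul]
    rw [e1, e2, zero_add]
    show ∑ j : Fin n, X (w.1, j) ^ (p ^ N) * _ - _ ∈ _
    rw [← Finset.sum_filter_add_sum_filter_not Finset.univ (fun j => L ≤ lv j),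
      add_sub_cancel_left]
    refine Ideal.sum_mem _ fun j hj => ?_
    have h4 : ¬ L ≤ lv j := (Finset.mem_filter.1 hj).2
    have h5 := w.2
    exact Ideal.mul_mem_right _ _ (Ideal.pow_mem_of_mem _ (X_mem lv _ (by omega)) _
      (pow_pos hp.out.pos N))

end char

end Pool.Agent.N429.RS
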