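import Pool.Agent.N429.RS.Top

/-!
The heights matter only in the block upper triangular positions.
-/

set_option autoImplicit false
set_option linter.unusedSectionVars false

open MvPolynomial Matrix AlgebraicGeometry CategoryTheory Pool.Agent.H920R2

universe u

namespace Pool.Agent.N429.RS

open Pool.Agent.Y212.Fk Pool.Agent.Y212.Pk

variable {k : Type u} [Field k] {n m : ℕ} (lv : Fin n → ℕ)

/-- the heights in the block upper triangular positions -/
def cut (lv : Fin n → ℕ) (r : Fin n → Fin n → ℕ) (i j : Fin n) : ℕ :=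
  if lv i ≤ lv j then r i j else 0

lemma cut_mono {r : Fin n → Fin n → ℕ}
    (h : ∀ i j l, lv i ≤ lv j → lv j ≤ lv l → r i j ≤ r i l) :
    ∀ i j l, lv j ≤ lv l → cut lv r i j ≤ cut lv r i l := by
  intro i j l hjl
  unfold cut
  by_cases hij : lv i ≤ lv j
  · rw [if_pos hij, if_pos (hij.trans hjl)]
    exact h i j l hij hjl
  · rw [if_neg hij]
    exact Nat.zero_le _

lemma frobM_le {p : ℕ} (hp : 0 < p) (r r' : Fin n → Fin n → ℕ)
    (h : ∀ i j, lv i ≤ lv j → r i j = r' i j) :
    (frobM k n m lv fun i j => p ^ r i j) ≤ frobM k n m lv fun i j => p ^ r' i j := by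
  rw [frobM, Ideal.span_le]
  rintro _ (⟨⟨i, j⟩, rfl⟩ | ⟨u, hu, rfl⟩)
  · by_cases hij : lv i ≤ lv j
    · show X (i, j) ^ (p ^ r i j) - _ ∈ frobM k n m lv fun i j => p ^ r' i j
      rw [h i j hij]
      exact Ideal.subset_span (Or.inl ⟨(i, j), rfl⟩)
    · show X (i, j) ^ (p ^ r i j) - (if i = j then 1 else 0) ∈ frobM k n m lv fun i j => p ^ r' i j
      have hne : i ≠ j := by
        rintro rfl
        exact hij le_rfl
      rw [if_neg hne, sub_zero]
      exact Ideal.pow_mem_of_mem _ (X_mem lv _ (by omega)) _ (pow_pos hp _)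
  · exact Ideal.subset_span (Or.inr ⟨u, hu, rfl⟩)

lemma frobM_cut {p : ℕ} (hp : 0 < p) (r : Fin n → Fin n → ℕ) :
    (frobM k n m lv fun i j => p ^ r i j) = frobM k n m lv fun i j => p ^ cut lv r i j :=
  le_antisymm (frobM_le lv hp r (cut lv r) fun i j h => (if_pos h).symm)
    (frobM_le lv hp (cut lv r) r fun i j h => if_pos h)

lemma InvM_cut {p : ℕ} (hp : 0 < p) (r : Fin n → Fin n → ℕ) :
    (InvM k n m lv fun i j => p ^ r i j) = InvM k n m lv fun i j => p ^ cut lv r i j := by
  ext f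
  rw [mem_InvM, mem_InvM, frobM_cut lv hp]

theorem final {p : ℕ} [hp : Fact p.Prime] [CharP k p] (r : Fin n → Fin n → ℕ)
    (h : ∀ i j l, lv i ≤ lv j → lv j ≤ lv l → r i j ≤ r i l) (hnm : n ≤ m) :
    Algebra.FiniteType k (InvM k n m lv fun i j => p ^ r i j) ∧
    HasResolution (X := Spec (CommRingCat.of (InvM k n m lv fun i j => p ^ r i j)))
      (Spec.map (CommRingCat.ofHom
        (algebraMap k (InvM k n m lv fun i j => p ^ r i j)))) := by
  rw [InvM_cut lv hp.out.pos]
  obtain ⟨R, hR⟩ : ∃ R, ∀ i j, cut lv r i j ≤ R :=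
    ⟨Finset.univ.sup fun i => Finset.univ.sup (cut lv r i), fun i j =>
      (Finset.le_sup (f := cut lv r i) (Finset.mem_univ j)).trans
        (Finset.le_sup (f := fun i => Finset.univ.sup (cut lv r i)) (Finset.mem_univ i))⟩
  exact ⟨finiteType_of_pow _ (pow_pos hp.out.pos R) fun v => pow_memM lv (cut lv r) R hR v,
    hasResolutionM lv (cut lv r) (cut_mono lv h) hnm⟩

end Pool.Agent.N429.RS
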