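import Pool.Agent.N429.RS.Bas

/-!
The invariants are polynomials in the coordinates of the charts.
-/

set_option autoImplicit false
set_option linter.unusedSectionVars false

open MvPolynomial Matrix Cardinal

universe u

namespace Pool.Agent.N429.RS

open Pool.Agent.Y212.Fk Pool.Agent.Y212.Pk

variable {k : Type u} [Field k] {n m : ℕ} (lv : Fin n → ℕ)

open Classical in
/-- the exponent of a coordinate -/
noncomputable def ex (p : ℕ) {n m : ℕ} (lv : Fin n → ℕ) (r : Fin n → Fin n → ℕ) (e : Fin n → Fin m)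
    (v : Fin n × Fin m) : ℕ :=
  if h : Q lv e v then p ^ r v.1 h.choose else 1

lemma ex_not {p : ℕ} (r : Fin n → Fin n → ℕ) (e : Fin n → Fin m) (v : Fin n × Fin m)
    (hv : ¬ Q lv e v) : ex p lv r e v = 1 := dif_neg hv

lemma ex_T {p : ℕ} (r : Fin n → Fin n → ℕ) (e : Fin n → Fin m)
    (he : ∀ i, dK k lv (lv i) e ≠ 0) (i l : Fin n) (h : lv i ≤ lv l) :
    ex p lv r e (i, e l) = p ^ r i l := by
  have hq : Q lv e (i, e l) := ⟨l, h, rfl⟩
  have h1 : hq.choose = l := e_injP lv e he hq.choose_spec.2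
  rw [ex, dif_pos hq, h1]

lemma ex_pos {p : ℕ} (hp : 0 < p) (r : Fin n → Fin n → ℕ) (e : Fin n → Fin m)
    (v : Fin n × Fin m) : 0 < ex p lv r e v := by
  unfold ex
  split_ifs
  · exact pow_pos hp _
  · exact one_pos

section char

variable {p : ℕ} [hp : Fact p.Prime] [CharP k p] (r : Fin n → Fin n → ℕ)

include hp

lemma dvd_evM (hmono : ∀ i j l, lv j ≤ lv l → r i j ≤ r i l) (e : Fin n → Fin m)
    (i0 l0 : Fin n) (h0 : lv i0 ≤ lv l0)
    {f : MvPolynomial (Fin n × Fin n) (MvPolynomial (Fin n × Fin m) k)}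
    (hf : f ∈ frobM k n m lv fun i j => p ^ r i j) :
    Polynomial.X ^ (p ^ r i0 l0) ∣ evP k lv e i0 l0 f := by
  have hle : (frobM k n m lv fun i j => p ^ r i j) ≤
      Ideal.comap (evP k lv e i0 l0) (Ideal.span {Polynomial.X ^ (p ^ r i0 l0)}) := by
    rw [frobM, Ideal.span_le]
    have h1 : ∀ u, evP k lv e i0 l0 (X u) =
        Polynomial.C (if u.1 = u.2 then 1 else 0) + Polynomial.X *
        Polynomial.C (if u.1 = i0 then SS k lv e l0 u.2 else 0) := by
      intro u
      simp [evP]
    rintro _ (⟨u, rfl⟩ | ⟨u, hu, rfl⟩)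
    · change evP k lv e i0 l0 _ ∈ Ideal.span {Polynomial.X ^ (p ^ r i0 l0)}
      rw [Ideal.mem_span_singleton]
      have hch : CharP (FF k n m) p := charP_of_injective_algebraMap (R := k)
        (FaithfulSMul.algebraMap_injective k (FF k n m)) p
      have h2 : evP k lv e i0 l0 (if u.1 = u.2 then 1 else 0) =
          Polynomial.C (if u.1 = u.2 then 1 else 0) := by
        split_ifs <;> simp
      rw [map_sub, map_pow, h1, h2, add_pow_char_pow, ← map_pow]
      have hne : p ^ r u.1 u.2 ≠ 0 := (pow_pos hp.out.pos _).ne'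
      have h3 : (if u.1 = u.2 then (1 : FF k n m) else 0) ^ (p ^ r u.1 u.2) =
          if u.1 = u.2 then 1 else 0 := by
        split_ifs
        · simp
        · exact zero_pow hne
      rw [h3, add_sub_cancel_left, mul_pow]
      by_cases hu : u.1 = i0
      · by_cases hl : lv l0 ≤ lv u.2
        · refine Dvd.dvd.mul_right (pow_dvd_pow _ ?_) _
          rw [hu]
          exact Nat.pow_le_pow_right hp.out.pos (hmono _ _ _ hl)
        · have h5 : SS k lv e l0 u.2 = 0 := by
            simp only [SS, Matrix.of_apply]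
            rw [dif_neg hl]
          rw [if_pos hu, h5, map_zero, zero_pow hne, mul_zero]
          exact dvd_zero _
      · rw [if_neg hu, map_zero, zero_pow hne, mul_zero]
        exact dvd_zero _
    · change evP k lv e i0 l0 (X u) ∈ Ideal.span {Polynomial.X ^ (p ^ r i0 l0)}
      have hu' : lv u.2 < lv u.1 := hu
      have h4 : u.1 ≠ u.2 := by
        intro h
        rw [h] at hu'
        exact lt_irrefl _ hu'
      have h5 : (if u.1 = i0 then SS k lv e l0 u.2 else 0) = 0 := by
        split_ifs with h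
        · simp only [SS, Matrix.of_apply]
          rw [dif_neg]
          rw [h] at hu'
          omega
        · rfl
      rw [h1, if_neg h4, h5, map_zero, mul_zero, add_zero]
      exact Ideal.zero_mem _
  have h := hle hf
  rw [Ideal.mem_comap, Ideal.mem_span_singleton] at h
  exact h

lemma coeff_shift_thetaM (hmono : ∀ i j l, lv j ≤ lv l → r i j ≤ r i l) (e : Fin n → Fin m)
    (he : ∀ i, dK k lv (lv i) e ≠ 0) (i0 l0 : Fin n)
    (h0 : lv i0 ≤ lv l0) {f : MvPolynomial (Fin n × Fin m) k}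
    (hf : f ∈ InvM k n m lv fun i j => p ^ r i j) (s : ℕ) (hs0 : 0 < s)
    (hs : s < p ^ r i0 l0) : (shift (i0, e l0) (thetaP k lv e f)).coeff s = 0 := by
  apply psiP_inj lv e he
  rw [map_zero]
  have h1 := dvd_evM lv r hmono e i0 l0 h0 ((mem_InvM lv).1 hf)
  rw [map_sub, evP_coact lv e he i0 l0 h0, evP_C lv e he, chiP_eq] at h1
  have h2 := (Polynomial.X_pow_dvd_iff.1 h1) s hs
  rw [Polynomial.coeff_sub, Polynomial.coeff_C_of_ne_zero hs0.ne', sub_zero] at h2
  rw [← h2]
  simp

lemma algebraMap_memM (hmono : ∀ i j l, lv j ≤ lv l → r i j ≤ r i l) (e : Fin n → Fin m)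
    (he : ∀ i, dK k lv (lv i) e ≠ 0) (c : Fin n × Fin m → FF k n m)
    (hc : ∀ v : Fin n × Fin m, c v = wwP k lv e v ^ ex p lv r e v)
    {f : MvPolynomial (Fin n × Fin m) k} (hf : f ∈ InvM k n m lv fun i j => p ^ r i j) :
    algebraMap _ (FF k n m) f ∈ Algebra.adjoin k (Set.range c) := by
  classical
  rw [← psiP_theta lv e he]
  have h1 : thetaP k lv e f ∈ Algebra.adjoin k (Set.range fun v : Fin n × Fin m =>
      (if Q lv e v then X v ^ ex p lv r e v else X v : MvPolynomial (Fin n × Fin m) k)) := by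
    apply mem_adjoin_of_dvd' (fun v : Fin n × Fin m => Q lv e v) (fun v => ex p lv r e v)
    intro d hd v hv
    obtain ⟨l, hl, hl2⟩ := hv
    have h2 : v = (v.1, e l) := Prod.ext rfl hl2.symm
    have h4 := dvd_of_shift hp.out (r := r v.1 l) (v.1, e l) _
      (fun s hs0 hs => coeff_shift_thetaM lv r hmono e he _ _ hl hf s hs0 hs) d hd
    rw [← h2] at h4
    have h5 : ex p lv r e v = p ^ r v.1 l := by
      rw [h2]
      exact ex_T lv r e he _ _ hl
    rw [h5]
    exact h4
  have h3 : psiP k lv e (thetaP k lv e f) ∈ (Algebra.adjoin k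
      (Set.range fun v : Fin n × Fin m => (if Q lv e v then X v ^ ex p lv r e v else X v :
        MvPolynomial (Fin n × Fin m) k))).map (psiP k lv e) := ⟨_, h1, rfl⟩
  rw [AlgHom.map_adjoin] at h3
  refine Algebra.adjoin_mono ?_ h3
  rintro _ ⟨_, ⟨v, rfl⟩, rfl⟩
  refine ⟨v, ?_⟩
  by_cases hv : Q lv e v
  · simp only [if_pos hv]
    rw [map_pow, psiP_X, hc v]
  · simp only [if_neg hv]
    rw [psiP_X, hc v, ex_not lv r e v hv, pow_one]

end char

/-! ### the mixed minors in the coordinates of a chart -/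

section fix

variable (e : Fin n → Fin m) (he : ∀ i, dK k lv (lv i) e ≠ 0)

/-- the row `i` modulo the rows of level at least `L` -/
noncomputable def rho (k : Type u) [Field k] {n m : ℕ} (lv : Fin n → ℕ) (e : Fin n → Fin m)
    (L : ℕ) (i : Fin n) (c : Fin m) : FF k n m :=
  ∑ l ∈ Finset.univ.filter (fun l => ¬ L ≤ lv l), (SS k lv e)⁻¹ i l * UU k lv e l c

/-- the reduced matrix with the row `rho` -/
noncomputable def NU (k : Type u) [Field k] {n m : ℕ} (lv : Fin n → ℕ) (e : Fin n → Fin m)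
    (L : ℕ) (i : Fin n) (c : Fin m) (e' : Fin n → Fin m) :
    Matrix (Unit ⊕ Rw lv L) (Unit ⊕ Rw lv L) (FF k n m) :=
  Matrix.of fun a b => Sum.elim (fun _ => rho k lv e L i (cls lv L c e' b))
    (fun w => UU k lv e w.1 (cls lv L c e' b)) a

/-- the mixed minors over the function field -/
noncomputable def mK (k : Type u) [Field k] {n m : ℕ} (lv : Fin n → ℕ) (L : ℕ) (i : Fin n)
    (c : Fin m) (e : Fin n → Fin m) : FF k n m :=
  ((XK k n m).submatrix (rws lv L i) (cls lv L c e)).det

lemma mK_eq (L : ℕ) (i : Fin n) (c : Fin m) (e : Fin n → Fin m) :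
    mK k lv L i c e = algebraMap _ (FF k n m) (mx k lv L i c e) := by
  rw [mx, RingHom.map_det]
  rfl

include he

lemma dK_eq_mul (L : ℕ) (e' : Fin n → Fin m) : dK k lv L e' =
    ((SS k lv e)⁻¹.submatrix (Subtype.val : Rw lv L → Fin n)
        (Subtype.val : Rw lv L → Fin n)).det *
      ((UU k lv e).submatrix (Subtype.val : Rw lv L → Fin n) fun l => e' l.1).det := by
  rw [← Matrix.det_mul, dK]
  congr 1
  ext1 i j
  rw [Matrix.mul_apply]
  simp only [XL, Matrix.submatrix_apply]
  rw [← TT_mul_apply lv e he]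
  have h2 := Finset.sum_subtype (Finset.univ.filter (fun l => L ≤ lv l))
    (p := fun l => L ≤ lv l) (F := inferInstance) (fun x => by simp)
    (fun l => (SS k lv e)⁻¹ i.1 l * UU k lv e l (e' j.1))
  rw [← h2]
  symm
  apply Finset.sum_subset (Finset.filter_subset _ _)
  intro l _ hl
  have h3 : ¬ L ≤ lv l := by simpa using hl
  have h4 := i.2
  rw [TT_zero lv e he _ _ (by omega), zero_mul]

lemma mK_eq_mul (L : ℕ) (i : Fin n) (c : Fin m) (e' : Fin n → Fin m) : mK k lv L i c e' =
    ((SS k lv e)⁻¹.submatrix (Subtype.val : Rw lv L → Fin n)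
        (Subtype.val : Rw lv L → Fin n)).det * (NU k lv e L i c e').det := by
  classical
  let G : Matrix (Unit ⊕ Rw lv L) (Unit ⊕ Rw lv L) (FF k n m) :=
    Matrix.fromBlocks 1 (Matrix.of fun _ w => (SS k lv e)⁻¹ i w.1) 0
      ((SS k lv e)⁻¹.submatrix (Subtype.val : Rw lv L → Fin n) (Subtype.val : Rw lv L → Fin n))
  have hG : G.det = ((SS k lv e)⁻¹.submatrix (Subtype.val : Rw lv L → Fin n)
        (Subtype.val : Rw lv L → Fin n)).det := by
    rw [Matrix.det_fromBlocks_zero₂₁, Matrix.det_one, one_mul]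
  rw [← hG, ← Matrix.det_mul, mK]
  congr 1
  ext1 a b
  have hsub : ∀ f : Fin n → FF k n m,
      ∑ w : Rw lv L, f w.1 = ∑ j ∈ Finset.univ.filter (fun j => L ≤ lv j), f j := fun f =>
    (Finset.sum_subtype (Finset.univ.filter (fun j => L ≤ lv j)) (p := fun j => L ≤ lv j)
      (fun x => by simp) f).symm
  rw [Matrix.mul_apply, Fintype.sum_sum_type, Matrix.submatrix_apply]
  rcases a with a | w
  · have e1 : ∑ w : Rw lv L, G (Sum.inl a) (Sum.inr w) * NU k lv e L i c e' (Sum.inr w) b =
        ∑ j ∈ Finset.univ.filter (fun j => L ≤ lv j), (SS k lv e)⁻¹ i j *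
          UU k lv e j (cls lv L c e' b) := by
      rw [← hsub (fun j => (SS k lv e)⁻¹ i j * UU k lv e j (cls lv L c e' b))]
      rfl
    have e2 : ∑ x : Unit, G (Sum.inl a) (Sum.inl x) * NU k lv e L i c e' (Sum.inl x) b =
        rho k lv e L i (cls lv L c e' b) := by
      rw [Finset.univ_unique, Finset.sum_singleton]
      have : G (Sum.inl a) (Sum.inl default) = 1 := by
        show (1 : Matrix Unit Unit _) a default = 1
        rw [Subsingleton.elim a default, Matrix.one_apply_eq]
      rw [this, one_mul]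
      rfl
    rw [e1, e2, rho, add_comm, Finset.sum_filter_add_sum_filter_not]
    exact (TT_mul_apply lv e he i _).symm
  · have e1 : ∑ w' : Rw lv L, G (Sum.inr w) (Sum.inr w') * NU k lv e L i c e' (Sum.inr w') b =
        ∑ j ∈ Finset.univ.filter (fun j => L ≤ lv j), (SS k lv e)⁻¹ w.1 j *
          UU k lv e j (cls lv L c e' b) := by
      rw [← hsub (fun j => (SS k lv e)⁻¹ w.1 j * UU k lv e j (cls lv L c e' b))]
      rfl
    have e2 : ∑ x : Unit, G (Sum.inr w) (Sum.inl x) * NU k lv e L i c e' (Sum.inl x) b = 0 := by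
      refine Finset.sum_eq_zero fun x _ => ?_
      have : G (Sum.inr w) (Sum.inl x) = 0 := rfl
      rw [this, zero_mul]
    rw [e1, e2, zero_add]
    show XK k n m w.1 (cls lv L c e' b) = _
    rw [← TT_mul_apply lv e he]
    symm
    apply Finset.sum_subset (Finset.filter_subset _ _)
    intro l _ hl
    have h3 : ¬ L ≤ lv l := by simpa using hl
    have h4 := w.2
    rw [TT_zero lv e he _ _ (by omega), zero_mul]

/-- the ratios of the mixed minors -/
lemma mK_div (L : ℕ) (hL : dK k lv L e ≠ 0) (i : Fin n) (c : Fin m) (e' : Fin n → Fin m) :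
    mK k lv L i c e' / dK k lv L e = (NU k lv e L i c e').det := by
  have h1 := dK_eq_mul lv e he L e
  rw [det_UU_sub lv e he, mul_one] at h1
  rw [mK_eq_mul lv e he, ← h1, mul_div_cancel_left₀ _ hL]

/-- the coordinate `T i l` as a mixed minor -/
lemma NU_det (i l : Fin n) :
    (NU k lv e (lv l + 1) i (e l) e).det = (SS k lv e)⁻¹ i l := by
  classical
  have hr1 : rho k lv e (lv l + 1) i (e l) = (SS k lv e)⁻¹ i l := by
    unfold rho
    have h1 : ∀ a ∈ Finset.univ.filter (fun a => ¬ lv l + 1 ≤ lv a),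
        (SS k lv e)⁻¹ i a * UU k lv e a (e l) = if a = l then (SS k lv e)⁻¹ i a else 0 := by
      intro a ha
      have h2 : ¬ lv l + 1 ≤ lv a := (Finset.mem_filter.1 ha).2
      rw [UU_e lv e he a l (by omega)]
      split_ifs <;> simp
    rw [Finset.sum_congr rfl h1, Finset.sum_ite_eq', if_pos]
    simp
  have hr2 : ∀ w : Rw lv (lv l + 1), rho k lv e (lv l + 1) i (e w.1) = 0 := by
    intro w
    unfold rho
    refine Finset.sum_eq_zero fun a ha => ?_
    have h2 : ¬ lv l + 1 ≤ lv a := (Finset.mem_filter.1 ha).2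
    have h3 := w.2
    rw [UU_e lv e he a w.1 (by omega), if_neg, mul_zero]
    rintro rfl
    omega
  have hN : NU k lv e (lv l + 1) i (e l) e = Matrix.fromBlocks
      (Matrix.of fun _ _ : Unit => (SS k lv e)⁻¹ i l) 0
      (Matrix.of fun (w : Rw lv (lv l + 1)) (_ : Unit) => UU k lv e w.1 (e l))
      ((UU k lv e).submatrix (Subtype.val : Rw lv (lv l + 1) → Fin n) fun l => e l.1) := by
    ext1 a b
    rcases a with a | w <;> rcases b with b | w'
    · exact hr1
    · exact hr2 w'
    · rfl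
    · rfl
  rw [hN, Matrix.det_fromBlocks_zero₁₂, det_UU_sub lv e he, mul_one, Matrix.det_unique]
  rfl

end fix

end Pool.Agent.N429.RS
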