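import Pool.Agent.N429.RS.Inv

/-!
Resolution of the quotients by the infinitesimal group schemes with heights which do not decrease
along the rows.
-/

set_option autoImplicit false
set_option linter.unusedSectionVars false

open MvPolynomial Matrix AlgebraicGeometry CategoryTheory Pool.Agent.H920R2

universe u

namespace Pool.Agent.N429.RS

open Pool.Agent.Y212.Fk Pool.Agent.Y212.Pk

variable {k : Type u} [Field k] {n m : ℕ} (lv : Fin n → ℕ)

/-- the levels of the minors -/
def lv2 (lv : Fin n → ℕ) : Fin n ⊕ Fin n → ℕ := Sum.elim lv fun l => lv l + 1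

/-- the index set of the generators -/
abbrev Ix (n m N : ℕ) (lv : Fin n → ℕ) : Type :=
  (Fin n ⊕ Fin n → Fin N → Fin n → Fin m) ⊕
    ({x : Fin n × Fin n // lv x.1 ≤ lv x.2} × (Fin n → Fin m))

section char

variable {p : ℕ} [hp : Fact p.Prime] [CharP k p] (r : Fin n → Fin n → ℕ) (R : ℕ)

/-- the polynomials generating the ideal of the blowup -/
noncomputable def zpol (k : Type u) [Field k] (p n m : ℕ) (lv : Fin n → ℕ) (r : Fin n → Fin n → ℕ)
    (R : ℕ) : Ix n m (p ^ R) lv → MvPolynomial (Fin n × Fin m) k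
  | Sum.inl t => ∏ s, ∏ a, mn k lv (lv2 lv s) (t s a)
  | Sum.inr (⟨(i, l), _⟩, e) => ∏ s, if s = Sum.inr l then
      mn k lv (lv l + 1) e ^ (p ^ R - p ^ r i l) * mx k lv (lv l + 1) i (e l) e ^ (p ^ r i l)
      else mn k lv (lv2 lv s) e ^ (p ^ R)

include hp

lemma prod_det_pow (hR : ∀ i j, r i j ≤ R) :
    (∏ s : Fin n ⊕ Fin n, (gL k n m lv (lv2 lv s)).det ^ (p ^ R)) - 1 ∈
      frobM k n m lv fun i j => p ^ r i j := by
  have h := prod_sub_mem (frobM k n m lv fun i j => p ^ r i j) Finset.univ
    (fun s : Fin n ⊕ Fin n => (gL k n m lv (lv2 lv s)).det ^ (p ^ R)) (fun _ => 1)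
    (fun s _ => det_gL_pow lv r R hR (lv2 lv s))
  rwa [Finset.prod_const_one] at h

lemma zpol_mem (hmono : ∀ i j l, lv j ≤ lv l → r i j ≤ r i l) (hR : ∀ i j, r i j ≤ R)
    (t : Ix n m (p ^ R) lv) : zpol k p n m lv r R t ∈ InvM k n m lv fun i j => p ^ r i j := by
  classical
  rcases t with t | ⟨⟨⟨i, l⟩, hil⟩, e⟩
  · refine Semi.inv lv (μ := ∏ s : Fin n ⊕ Fin n, (gL k n m lv (lv2 lv s)).det ^ (p ^ R)) ?_
      (prod_det_pow lv r R hR)
    refine Semi.prod lv _ fun s _ => ?_
    have h := Semi.prod lv (q := fun i j => p ^ r i j) (Finset.univ : Finset (Fin (p ^ R)))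
      (f := fun a => mn k lv (lv2 lv s) (t s a)) (μ := fun _ => (gL k n m lv (lv2 lv s)).det)
      fun a _ => semi_mn lv _ _ _
    rwa [Finset.prod_const, Finset.card_univ, Fintype.card_fin] at h
  · refine Semi.inv lv (μ := ∏ s : Fin n ⊕ Fin n, (gL k n m lv (lv2 lv s)).det ^ (p ^ R)) ?_
      (prod_det_pow lv r R hR)
    refine Semi.prod lv _ fun s _ => ?_
    by_cases hs : s = Sum.inr l
    · rw [if_pos hs, hs]
      have hq : p ^ r i l ≤ p ^ R := Nat.pow_le_pow_right hp.out.pos (hR i l)
      have e1 : (gL k n m lv (lv2 lv (Sum.inr l))).det ^ (p ^ R) =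
          (gL k n m lv (lv l + 1)).det ^ (p ^ R - p ^ r i l) *
            (gL k n m lv (lv l + 1)).det ^ (p ^ r i l) := by
        rw [← pow_add, Nat.sub_add_cancel hq]
        rfl
      rw [e1]
      exact ((semi_mn lv _ _ _).pow lv _).mul lv (semi_mx lv r hmono i l hil _ _)
    · rw [if_neg hs]
      exact (semi_mn lv _ _ _).pow lv _

/-- The generators of the ideal. -/
noncomputable def zM (k : Type u) [Field k] [CharP k p] (n m : ℕ) (lv : Fin n → ℕ)
    (r : Fin n → Fin n → ℕ) (R : ℕ) (hmono : ∀ i j l, lv j ≤ lv l → r i j ≤ r i l)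
    (hR : ∀ i j, r i j ≤ R) (t : Ix n m (p ^ R) lv) : InvM k n m lv fun i j => p ^ r i j :=
  ⟨zpol k p n m lv r R t, zpol_mem lv r R hmono hR t⟩

theorem hasResolutionM (hmono : ∀ i j l, lv j ≤ lv l → r i j ≤ r i l) (hnm : n ≤ m) :
    HasResolution (X := Spec (CommRingCat.of (InvM k n m lv fun i j => p ^ r i j)))
      (Spec.map (CommRingCat.ofHom
        (algebraMap k (InvM k n m lv fun i j => p ^ r i j)))) := by
  classical
  obtain ⟨R, hR⟩ : ∃ R, ∀ i j, r i j ≤ R :=
    ⟨Finset.univ.sup fun i => Finset.univ.sup (r i), fun i j =>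
      (Finset.le_sup (f := r i) (Finset.mem_univ j)).trans
        (Finset.le_sup (f := fun i => Finset.univ.sup (r i)) (Finset.mem_univ i))⟩
  have hq : 0 < p ^ R := pow_pos hp.out.pos R
  have hch : CharP (FF k n m) p := charP_of_injective_algebraMap (R := k)
    (FaithfulSMul.algebraMap_injective k (FF k n m)) p
  let g : (InvM k n m lv fun i j => p ^ r i j) →ₐ[k] FF k n m :=
    (IsScalarTower.toAlgHom k (MvPolynomial (Fin n × Fin m) k) (FF k n m)).comp
      (InvM k n m lv fun i j => p ^ r i j).val
  have hg : Function.Injective g := by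
    intro a b hab
    apply Subtype.ext
    exact IsFractionRing.injective (MvPolynomial (Fin n × Fin m) k) (FF k n m) hab
  let z := zM (p := p) k n m lv r R hmono hR
  have hgz1 : ∀ t, g (z (Sum.inl t)) = ∏ s, ∏ a, dK k lv (lv2 lv s) (t s a) := by
    intro t
    change algebraMap _ (FF k n m) (∏ s, ∏ a, mn k lv (lv2 lv s) (t s a)) = _
    rw [map_prod]
    apply Finset.prod_congr rfl
    intro s _
    rw [map_prod]
    apply Finset.prod_congr rfl
    intro a _
    rw [dK_eq]
  have hgz2 : ∀ (i l : Fin n) (hil : lv i ≤ lv l) (e : Fin n → Fin m),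
      g (z (Sum.inr (⟨(i, l), hil⟩, e))) = ∏ s, if s = Sum.inr l then
        dK k lv (lv l + 1) e ^ (p ^ R - p ^ r i l) * mK k lv (lv l + 1) i (e l) e ^ (p ^ r i l)
        else dK k lv (lv2 lv s) e ^ (p ^ R) := by
    intro i l hil e
    change algebraMap _ (FF k n m) (∏ s, if s = Sum.inr l then
      mn k lv (lv l + 1) e ^ (p ^ R - p ^ r i l) * mx k lv (lv l + 1) i (e l) e ^ (p ^ r i l)
      else mn k lv (lv2 lv s) e ^ (p ^ R)) = _
    rw [map_prod]
    apply Finset.prod_congr rfl
    intro s _
    split_ifs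
    · rw [map_mul, map_pow, map_pow, dK_eq, mK_eq]
    · rw [map_pow, dK_eq]
  have hgc : ∀ e : Fin n → Fin m, g (z (Sum.inl fun _ _ => e)) =
      ∏ s, dK k lv (lv2 lv s) e ^ (p ^ R) := by
    intro e
    rw [hgz1]
    refine Finset.prod_congr rfl fun s _ => ?_
    rw [Finset.prod_const, Finset.card_univ, Fintype.card_fin]
  have hz0 : ∀ e : Fin n → Fin m, z (Sum.inl fun _ _ => e) ≠ 0 ↔
      ∀ s, dK k lv (lv2 lv s) e ≠ 0 := by
    intro e
    rw [← map_ne_zero_iff g hg, hgc, Finset.prod_ne_zero_iff]
    constructor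
    · intro h s
      exact fun h2 => h s (Finset.mem_univ _) (by rw [h2, zero_pow hq.ne'])
    · intro h s _
      exact pow_ne_zero _ (h s)
  have hdiv1 : ∀ (t : Fin n ⊕ Fin n → Fin (p ^ R) → Fin n → Fin m) (e : Fin n → Fin m),
      g (z (Sum.inl t)) / g (z (Sum.inl fun _ _ => e)) =
        ∏ s, ∏ a, (dK k lv (lv2 lv s) (t s a) / dK k lv (lv2 lv s) e) := by
    intro t e
    rw [hgz1, hgz1, ← Finset.prod_div_distrib]
    apply Finset.prod_congr rfl
    intro s _
    rw [Finset.prod_div_distrib]
  have hdiv2 : ∀ (i l : Fin n) (hil : lv i ≤ lv l) (e' e : Fin n → Fin m),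
      (∀ s, dK k lv (lv2 lv s) e ≠ 0) →
      g (z (Sum.inr (⟨(i, l), hil⟩, e'))) / g (z (Sum.inl fun _ _ => e)) =
        ∏ s, if s = Sum.inr l then
          (dK k lv (lv l + 1) e' / dK k lv (lv l + 1) e) ^ (p ^ R - p ^ r i l) *
          (mK k lv (lv l + 1) i (e' l) e' / dK k lv (lv l + 1) e) ^ (p ^ r i l)
        else (dK k lv (lv2 lv s) e' / dK k lv (lv2 lv s) e) ^ (p ^ R) := by
    intro i l hil e' e hs
    rw [hgz2, hgc, ← Finset.prod_div_distrib]
    apply Finset.prod_congr rfl
    intro s _
    by_cases h : s = Sum.inr l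
    · rw [if_pos h, if_pos h, h]
      have hq2 : p ^ r i l ≤ p ^ R := Nat.pow_le_pow_right hp.out.pos (hR i l)
      have e1 : dK k lv (lv2 lv (Sum.inr l)) e ^ (p ^ R) =
          dK k lv (lv l + 1) e ^ (p ^ R - p ^ r i l) * dK k lv (lv l + 1) e ^ (p ^ r i l) := by
        rw [← pow_add, Nat.sub_add_cancel hq2]
        rfl
      rw [e1, div_pow, div_pow, div_mul_div_comm]
    · rw [if_neg h, if_neg h, div_pow]
  refine hasResolution_of_charts g hg z (Set.range fun e => Sum.inl fun _ _ => e) ?_ ?_
  · intro V hV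
    obtain ⟨e, he, hgood⟩ := exists_good lv V hnm
    have hne : ∀ L, dK k lv L e ≠ 0 := fun L => dK_ne_of_inj lv L e he
    have hU : ∀ i j, UU k lv e i j ∈ V := by
      intro i j
      rw [UU_eq lv e i j (hne _)]
      exact hgood i _
    have hT : ∀ i l, (SS k lv e)⁻¹ i l ∈ V := by
      intro i l
      have h1 : (SS k lv e)⁻¹ i l ^ (p ^ R) ∈ V := by
        rw [TT_eq lv e (fun i => hne _), sum_pow_char_pow]
        refine sum_mem fun j _ => ?_
        rw [mul_pow]
        refine mul_mem ?_ (pow_mem ?_ _)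
        · have h2 := hV ⟨X (i, e j) ^ (p ^ R), pow_memM lv r R hR (i, e j)⟩
          have h3 : g ⟨X (i, e j) ^ (p ^ R), pow_memM lv r R hR (i, e j)⟩ =
              XK k n m i (e j) ^ (p ^ R) := by
            change algebraMap (MvPolynomial (Fin n × Fin m) k) (FF k n m)
              (X (i, e j) ^ (p ^ R)) = _
            rw [map_pow]
            rfl
          rwa [h3] at h2
        · rw [Matrix.adjugate_apply]
          refine det_mem_sub V.toSubring _ fun x y => ?_
          by_cases hx : x = l
          · subst hx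
            rw [Matrix.updateRow_self, Pi.single_apply]
            split_ifs
            · exact Subring.one_mem _
            · exact Subring.zero_mem _
          · rw [Matrix.updateRow_ne hx]
            exact hU _ _
      rw [← ValuationSubring.valuation_le_one_iff, map_pow] at h1
      rw [← ValuationSubring.valuation_le_one_iff]
      exact (pow_le_one_iff_of_nonneg zero_le hq.ne').1 h1
    have hd : ∀ L e', dK k lv L e' / dK k lv L e ∈ V := by
      intro L e'
      rw [dK_div lv e (fun i => hne _) L e', mul_div_cancel_left₀ _ (hne _)]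
      exact det_mem_sub V.toSubring _ fun a b => hU _ _
    have hm : ∀ L i c e', mK k lv L i c e' / dK k lv L e ∈ V := by
      intro L i c e'
      rw [mK_div lv e (fun i => hne _) L (hne _)]
      refine det_mem_sub V.toSubring _ fun a b => ?_
      rcases a with a | w
      · change ∑ l ∈ Finset.univ.filter (fun l => ¬ L ≤ lv l), _ ∈ V
        exact sum_mem fun a _ => mul_mem (hT _ _) (hU _ _)
      · exact hU _ _
    refine ⟨_, ⟨e, rfl⟩, (hz0 e).2 fun i => hne _, fun t => ?_⟩
    rcases t with t | ⟨⟨⟨i, l⟩, hil⟩, e'⟩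
    · rw [hdiv1]
      exact prod_mem fun i _ => prod_mem fun a _ => hd _ _
    · rw [hdiv2 i l hil e' e fun s => hne _]
      refine prod_mem fun s _ => ?_
      split_ifs
      · exact mul_mem (pow_mem (hd _ _) _) (pow_mem (hm _ _ _ _) _)
      · exact pow_mem (hd _ _) _
  · rintro _ ⟨e, rfl⟩ hs
    have hes : ∀ s, dK k lv (lv2 lv s) e ≠ 0 := (hz0 e).1 hs
    have he : ∀ i, dK k lv (lv i) e ≠ 0 := fun i => hes (Sum.inl i)
    have he2 : ∀ l, dK k lv (lv l + 1) e ≠ 0 := fun l => hes (Sum.inr l)
    let c : Fin n × Fin m → FF k n m := fun v => wwP k lv e v ^ ex p lv r e v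
    have hc : ∀ v : Fin n × Fin m, c v = wwP k lv e v ^ ex p lv r e v := fun v => rfl
    have hc3 : ∀ v : Fin n × Fin m, ¬ Q lv e v → c v = UU k lv e v.1 v.2 := by
      intro v hv
      rw [hc v, ex_not lv r e v hv, pow_one, wwP_not lv e v hv]
    have hcT : ∀ i l, lv i ≤ lv l → c (i, e l) = (SS k lv e)⁻¹ i l ^ (p ^ r i l) := by
      intro i l hil
      rw [hc, ex_T lv r e he i l hil, wwP_T lv e he i l hil]
    refine ⟨Fin n × Fin m, inferInstance, c, ?_, ?_, ?_, ?_⟩
    · have h1 := (algebraicIndependent_wwP lv e he).polynomial_aeval_of_transcendental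
        (f := fun v : Fin n × Fin m => (Polynomial.X ^ (ex p lv r e v) : Polynomial k)) ?_
      · have h2 : (fun v : Fin n × Fin m => Polynomial.aeval (wwP k lv e v)
            (Polynomial.X ^ (ex p lv r e v) : Polynomial k)) = c := by
          funext v
          rw [map_pow, Polynomial.aeval_X, hc v]
        rw [h2] at h1
        exact h1
      · intro v
        exact (Polynomial.transcendental_X k).pow (ex_pos lv hp.out.pos r e v)
    · intro a
      exact algebraMap_memM lv r hmono e he c hc a.2
    · have hUc : ∀ i j, UU k lv e i j ∈ Algebra.adjoin k (Set.range c) := fun i j =>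
        UU_mem_adjoin lv e he c hc3 i j
      have hdc : ∀ s e', dK k lv (lv2 lv s) e' / dK k lv (lv2 lv s) e ∈
          Algebra.adjoin k (Set.range c) := by
        intro s e'
        rw [dK_div lv e he (lv2 lv s) e', mul_div_cancel_left₀ _ (hes s)]
        exact det_mem_sub (Algebra.adjoin k (Set.range c)).toSubring _ fun x y => hUc _ _
      intro t
      rcases t with t | ⟨⟨⟨i, l⟩, hil⟩, e'⟩
      · rw [hdiv1]
        exact Subalgebra.prod_mem _ fun i _ => Subalgebra.prod_mem _ fun a _ => hdc _ _
      · rw [hdiv2 i l hil e' e hes]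
        refine Subalgebra.prod_mem _ fun s _ => ?_
        split_ifs with hsl
        · refine Subalgebra.mul_mem _ (Subalgebra.pow_mem _ (hdc (Sum.inr l) e') _) ?_
          rw [mK_div lv e he (lv l + 1) (he2 l), ← iterateFrobenius_def, RingHom.map_det]
          refine det_mem_sub (Algebra.adjoin k (Set.range c)).toSubring _ fun a b => ?_
          rw [RingHom.mapMatrix_apply, Matrix.map_apply, iterateFrobenius_def]
          rcases a with a | w
          · change (∑ x ∈ Finset.univ.filter (fun x => ¬ lv l + 1 ≤ lv x), _) ^ (p ^ r i l) ∈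
              Algebra.adjoin k (Set.range c)
            rw [sum_pow_char_pow]
            refine Subalgebra.sum_mem _ fun x hx => ?_
            rw [mul_pow]
            refine Subalgebra.mul_mem _ ?_ (Subalgebra.pow_mem _ (hUc _ _) _)
            have hx2 : ¬ lv l + 1 ≤ lv x := (Finset.mem_filter.1 hx).2
            by_cases hix : lv i ≤ lv x
            · have hrr : r i x ≤ r i l := hmono i x l (by omega)
              have h5 : (SS k lv e)⁻¹ i x ^ (p ^ r i l) =
                  (c (i, e x)) ^ (p ^ (r i l - r i x)) := by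
                rw [hcT i x hix, ← pow_mul, ← pow_add, Nat.add_sub_cancel' hrr]
              rw [h5]
              exact Subalgebra.pow_mem _ (Algebra.subset_adjoin (Set.mem_range_self _)) _
            · rw [TT_zero lv e he i x (by omega), zero_pow (pow_pos hp.out.pos _).ne']
              exact Subalgebra.zero_mem _
          · exact Subalgebra.pow_mem _ (hUc _ _) _
        · exact Subalgebra.pow_mem _ (hdc s e') _
    · have hU : ∀ i j, UU k lv e i j ∈ Algebra.adjoin k (Set.range g ∪
          Set.range fun t => g (z t) / g (z (Sum.inl fun _ _ => e))) := by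
        intro i j
        rw [UU_eq lv e i j (he i)]
        apply Algebra.subset_adjoin
        right
        refine ⟨Sum.inl fun s a => if s = Sum.inl i ∧ a = ⟨0, hq⟩ then Function.update e i j
          else e, ?_⟩
        change g _ / g _ = _
        rw [hdiv1, Finset.prod_eq_single (Sum.inl i)]
        · rw [Finset.prod_eq_single (⟨0, hq⟩ : Fin (p ^ R))]
          · rw [if_pos ⟨rfl, rfl⟩]
            rfl
          · intro a _ ha
            rw [if_neg (fun h => ha h.2), div_self (hes _)]
          · intro h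
            exact absurd (Finset.mem_univ _) h
        · intro i' _ hi'
          apply Finset.prod_eq_one
          intro a _
          rw [if_neg (fun h => hi' h.1), div_self (hes _)]
        · intro h
          exact absurd (Finset.mem_univ _) h
      intro v
      by_cases hv : Q lv e v
      · obtain ⟨l, hl, hl2⟩ := hv
        have hl' : lv v.1 ≤ lv l := hl
        have h2 : v = (v.1, e l) := Prod.ext rfl hl2.symm
        rw [h2, hcT v.1 l hl']
        apply Algebra.subset_adjoin
        right
        refine ⟨Sum.inr (⟨(v.1, l), hl'⟩, e), ?_⟩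
        change g _ / g _ = _
        rw [hdiv2 v.1 l hl' e e hes, Finset.prod_eq_single (Sum.inr l)]
        · rw [if_pos rfl, div_self (he2 l), one_pow, one_mul,
            mK_div lv e he (lv l + 1) (he2 l), NU_det lv e he v.1 l]
        · intro s _ hs'
          rw [if_neg hs', div_self (hes s), one_pow]
        · intro h
          exact absurd (Finset.mem_univ _) h
      · rw [hc3 v hv]
        exact hU _ _

end char

end Pool.Agent.N429.RS
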